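import Pool.Agent.Y557.OE.Set
import Pool.Agent.Y729.RV.Rank
import Pool.Agent.W410.AC.HTG
import Pool.Agent.W131.AC.GROW
import Pool.Agent.W597.AC.LOC
import Pool.Agent.W989.AC.MULT

/-!
The poles of a function on a curve at the points above the elements of a subfield outside the
exceptional set (helper557).
-/

set_option autoImplicit false

namespace Pool.Agent.Y557.LF

open NumberField IsDedekindDomain Height Finset Polynomial
open Pool.Agent.Y728.AK Pool.Agent.Y728.MN Pool.Agent.Y557.OE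

section

variable (k A : Type) [Field k] [NumberField k] [CommRing A] [IsDomain A] [Algebra k A]
  [Algebra k[X] A] [IsScalarTower k k[X] A] [Module.Finite k[X] A]

theorem tt_eq : letI := Pool.Agent.Y729.RV.aQX k A
    Pool.Agent.W223.AC.tt A = algebraMap k[X] A X := by
  letI := Pool.Agent.Y729.RV.aQX k A
  show (algebraMap k[X] A) (Polynomial.mapRingHom (algebraMap ℚ k) X) = _
  rw [coe_mapRingHom, map_X]

theorem val_nat {L : Type} [Field L] [NumberField L] (v : HeightOneSpectrum (𝓞 L)) (n : ℕ)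
    (hv : (n : 𝓞 L) ∉ v.asIdeal) : v.valuation L (n : L) = 1 := by
  have e : (n : L) = algebraMap (𝓞 L) L (n : 𝓞 L) := by rw [map_natCast]
  rw [e]
  refine le_antisymm (v.valuation_le_one _) (not_lt.1 fun h => hv ?_)
  exact (v.valuation_lt_one_iff_mem _).1 h

/-- integrality of values -/
theorem val_int (c : A) : ∃ M : ℕ, M ≠ 0 ∧ ∀ (L : Type) [Field L] [NumberField L] (φ : A →+* L)
    (v : HeightOneSpectrum (𝓞 L)), (M : 𝓞 L) ∉ v.asIdeal →
      v.valuation L (φ (algebraMap k[X] A X)) ≤ 1 → v.valuation L (φ c) ≤ 1 := by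
  letI := Pool.Agent.Y729.RV.aQX k A
  haveI := Pool.Agent.Y729.RV.finiteX k A
  obtain ⟨n, hn, hI⟩ := Pool.Agent.W989.AC.MULT.t A c
  refine ⟨n, hn, fun L _ _ φ v hv ht => ?_⟩
  have h1 := Pool.Agent.W597.AC.t A _ hI L φ v (by rw [tt_eq]; exact ht)
  rw [map_mul, map_natCast, map_mul, val_nat v n hv, one_mul] at h1
  exact h1

/-- heights of values -/
theorem ht_grow (c : A) : ∃ (r : ℕ) (C : ℝ), 0 ≤ C ∧
    ∀ (L : Type) [Field L] [NumberField L] (φ : A →+* L),
      logHeight₁ (φ c) ≤ r * logHeight₁ (φ (algebraMap k[X] A X)) + Module.finrank ℚ L * C := by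
  letI := Pool.Agent.Y729.RV.aQX k A
  haveI := Pool.Agent.Y729.RV.finiteX k A
  obtain ⟨n, hn, hI⟩ := Pool.Agent.W989.AC.MULT.t A c
  obtain ⟨r, hr⟩ := Pool.Agent.W410.AC.t Pool.Agent.W131.AC.t A 1 (fun _ => (n : A) * c)
    (fun _ => hI)
  obtain ⟨C, hC, h⟩ := hr 0 (fun _ => 1) (fun _ => by simp)
  refine ⟨r, C + logHeight₁ (n : ℚ), add_nonneg hC (zero_le_logHeight₁ _), ?_⟩
  intro L _ _ φ
  have h1 := h L φ
  rw [Finset.univ_unique, Finset.sum_singleton, map_one, one_mul, map_mul, map_natCast, tt_eq,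
    Nat.cast_zero, zero_add] at h1
  have hnL : (n : L) ≠ 0 := by exact_mod_cast hn
  have e1 : φ c = ((n : L) * φ c) * (n : L)⁻¹ := by
    field_simp
  have h2 : logHeight₁ (n : L) = Module.finrank ℚ L * logHeight₁ (n : ℚ) := by
    have := ht_ext (L := L) (n : ℚ)
    rw [map_natCast] at this
    exact this
  rw [e1]
  refine (logHeight₁_mul_le _ _).trans ?_
  rw [logHeight₁_inv, h2]
  have h3 : logHeight₁ ((n : L) * φ c) ≤ r * logHeight₁ (φ (algebraMap k[X] A X)) +
      Module.finrank ℚ L * C := h1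
  linarith

end

open Classical in
/-- the sum of `log N v` over the poles `v` of `j` -/
noncomputable def poles {L : Type} [Field L] [NumberField L] (j : L) : ℝ :=
  ∑ᶠ v : HeightOneSpectrum (𝓞 L),
    if 1 < v.valuation L j then Real.log (Ideal.absNorm v.asIdeal) else 0

theorem poles_fin {L : Type} [Field L] [NumberField L] (j : L) :
    {v : HeightOneSpectrum (𝓞 L) | 1 < v.valuation L j}.Finite :=
  HeightOneSpectrum.Support.finite (𝓞 L) j

open Classical in
/-- the counting function is at most the sum over the poles -/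
theorem trn_le {K k : Type} [Field K] [NumberField K] [Field k] [NumberField k] [Algebra K k]
    {q r : ℕ} {A : Type} [CommRing A] [IsDedekindDomain A] [Algebra k A] [Algebra k[X] A]
    [IsScalarTower k k[X] A] [Module.Finite k[X] A] (a : Fin q → K) (b c : Fin r → A)
    (hbc : Ideal.span (Set.range b) ⊔ Ideal.span (Set.range c) = ⊤) :
    ∃ S : Finset (HeightOneSpectrum (𝓞 k)), ∀ (L : Type) [Field L] [NumberField L] [Algebra K L]
      [Algebra k L] (φ : Fin 1 → A →ₐ[k] L) (y : L), (∀ l, φ 0 (c l) = y * φ 0 (b l)) →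
      trnU (A := fun _ => A) S a (fun _ _ => r) (fun _ _ l => b l) ∅ φ ≤ poles y := by
  have h1top : (1 : A) ∈ Ideal.span (Set.range b) ⊔ Ideal.span (Set.range c) := by
    rw [hbc]
    exact Submodule.mem_top
  obtain ⟨z₁, hz₁, z₂, hz₂, hz⟩ := Submodule.mem_sup.1 h1top
  obtain ⟨α, hα⟩ := Ideal.mem_span_range_iff_exists_fun.1 hz₁
  obtain ⟨β, hβ⟩ := Ideal.mem_span_range_iff_exists_fun.1 hz₂
  choose M₁ hM₁ h1 using fun l => val_int k A (α l)
  choose M₂ hM₂ h2 using fun l => val_int k A (β l)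
  obtain ⟨M, hMM⟩ : ∃ M : ℕ, M = (∏ l, M₁ l) * ∏ l, M₂ l := ⟨_, rfl⟩
  have hM0 : M ≠ 0 := by
    rw [hMM]
    exact mul_ne_zero (Finset.prod_ne_zero_iff.2 fun l _ => hM₁ l)
      (Finset.prod_ne_zero_iff.2 fun l _ => hM₂ l)
  have hM : (M : 𝓞 k) ≠ 0 := by exact_mod_cast hM0
  have hfin : {p : HeightOneSpectrum (𝓞 k) | (M : 𝓞 k) ∈ p.asIdeal}.Finite := by
    refine (Ideal.finite_factors (I := Ideal.span {(M : 𝓞 k)}) (by
      rw [ne_eq, Ideal.zero_eq_bot, Ideal.span_singleton_eq_bot]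
      exact hM)).subset ?_
    intro p hp
    exact Ideal.dvd_span_singleton.2 hp
  refine ⟨hfin.toFinset, ?_⟩
  intro L _ _ _ _ φ y hy
  have hS : ∀ v : HeightOneSpectrum (𝓞 L), (∀ p ∈ hfin.toFinset,
      v.asIdeal.comap (algebraMap (𝓞 k) (𝓞 L)) ≠ p.asIdeal) → (M : 𝓞 L) ∉ v.asIdeal := by
    intro v hv hmem
    have hne : v.asIdeal.comap (algebraMap (𝓞 k) (𝓞 L)) ≠ ⊥ := by
      intro hbot
      have h3 : (M : 𝓞 k) ∈ v.asIdeal.comap (algebraMap (𝓞 k) (𝓞 L)) := by
        rw [Ideal.mem_comap, map_natCast]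
        exact hmem
      rw [hbot, Ideal.mem_bot] at h3
      exact hM h3
    have hp : (v.asIdeal.comap (algebraMap (𝓞 k) (𝓞 L))).IsPrime := inferInstance
    refine hv ⟨_, hp, hne⟩ ?_ rfl
    rw [Set.Finite.mem_toFinset]
    show (M : 𝓞 k) ∈ v.asIdeal.comap (algebraMap (𝓞 k) (𝓞 L))
    rw [Ideal.mem_comap, map_natCast]
    exact hmem
  have hkey : ∀ v : HeightOneSpectrum (𝓞 L),
      CondU (A := fun _ => A) hfin.toFinset a (fun _ _ => r) (fun _ _ l => b l) ∅ φ v →
      1 < v.valuation L y := by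
    rintro v ⟨hv, h | ⟨p, hp, -⟩⟩
    · obtain ⟨i, hi, j, -, hl⟩ := h
      have hi0 : i = 0 := Subsingleton.elim _ _
      subst hi0
      have hMv := hS v hv
      have hv1 : ∀ l, (M₁ l : 𝓞 L) ∉ v.asIdeal := fun l h3 => hMv (by
        have hd : M₁ l ∣ M := by
          rw [hMM]
          exact (Finset.dvd_prod_of_mem M₁ (Finset.mem_univ l)).mul_right _
        obtain ⟨n, hn⟩ := hd
        rw [hn, Nat.cast_mul]
        exact Ideal.mul_mem_right _ _ h3)
      have hv2 : ∀ l, (M₂ l : 𝓞 L) ∉ v.asIdeal := fun l h3 => hMv (by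
        have hd : M₂ l ∣ M := by
          rw [hMM]
          exact (Finset.dvd_prod_of_mem M₂ (Finset.mem_univ l)).mul_left _
        obtain ⟨n, hn⟩ := hd
        rw [hn, Nat.cast_mul]
        exact Ideal.mul_mem_right _ _ h3)
      by_contra hcon
      rw [not_lt] at hcon
      have e4 : (∑ l, φ 0 (α l) * φ 0 (b l)) + ∑ l, φ 0 (β l) * φ 0 (c l) = 1 := by
        have e := congrArg (φ 0) hz
        rw [← hα, ← hβ, map_add, map_sum, map_sum, map_one] at e
        simp only [map_mul] at e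
        exact e
      have e5 : v.valuation L (∑ l, φ 0 (α l) * φ 0 (b l)) < 1 := by
        refine Valuation.map_sum_lt _ one_ne_zero fun l _ => ?_
        rw [map_mul]
        exact lt_of_le_of_lt (mul_le_of_le_one_left' (h1 l L (φ 0 : A →+* L) v (hv1 l) hi)) (hl l)
      have e6 : v.valuation L (∑ l, φ 0 (β l) * φ 0 (c l)) < 1 := by
        refine Valuation.map_sum_lt _ one_ne_zero fun l _ => ?_
        rw [map_mul, hy l, map_mul]
        refine lt_of_le_of_lt (mul_le_of_le_one_left' (h2 l L (φ 0 : A →+* L) v (hv2 l) hi)) ?_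
        exact lt_of_le_of_lt (mul_le_of_le_one_left' hcon) (hl l)
      have e8 := (v.valuation L).map_add_lt e5 e6
      rw [e4, map_one] at e8
      exact lt_irrefl _ e8
    · exact absurd hp (Finset.notMem_empty p)
  unfold trnU poles
  have hf1 := poles_fin y
  rw [finsum_eq_sum_of_support_subset (s := hf1.toFinset) _ (by
      intro v hv
      rw [Finset.mem_coe, Set.Finite.mem_toFinset]
      rw [Function.mem_support] at hv
      by_contra hcon
      exact hv (if_neg fun h => hcon (hkey v h))),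
    finsum_eq_sum_of_support_subset (s := hf1.toFinset) _ (by
      intro v hv
      rw [Finset.mem_coe, Set.Finite.mem_toFinset]
      rw [Function.mem_support] at hv
      by_contra hcon
      exact hv (if_neg fun h => hcon h))]
  refine Finset.sum_le_sum fun v hv => ?_
  rw [Set.Finite.mem_toFinset] at hv
  rw [if_pos (show 1 < v.valuation L y from hv)]
  split_ifs
  · exact le_rfl
  · exact Real.log_natCast_nonneg _

/-- **the height of a function is bounded by its poles** -/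
theorem jfam {K k : Type} [Field K] [NumberField K] [Field k] [NumberField k] [Algebra K k]
    {q r : ℕ} (hq : 3 ≤ q) {A : Type} [CommRing A] [IsDedekindDomain A] [Algebra k A]
    [Algebra k[X] A] [IsScalarTower k k[X] A] [Module.Finite k[X] A] [FaithfulSMul k[X] A]
    (a : Fin q → K) (b c : Fin r → A)
    (hbc : Ideal.span (Set.range b) ⊔ Ideal.span (Set.range c) = ⊤)
    (F : Fin q → Ideal A) (hF : ∀ j, F j ≠ ⊥)
    (hwF : ∀ j l, ∀ e ∈ F j, b l * e ∈ (Ideal.span {algebraMap k[X] A X -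
      algebraMap k A (algebraMap K k (a j))}).radical) {κ : ℝ} (hκ : 0 < κ) :
    ∃ σ C₀ : ℝ, 0 ≤ σ ∧ 0 < C₀ ∧ ∀ x : Fin 1 → K, (∀ i j, x i ≠ a j) →
      ((q : ℝ) + (1 : ℕ) - 1 - κ / 2) * ∑ i, logHeight₁ (x i) ≤ nn (noS K) (fun j => pK (a j)) x →
      ∀ (L : Type) [Field L] [NumberField L] [Algebra K L] [Algebra k L] [IsScalarTower K k L]
        (φ : A →ₐ[k] L) (y : L), φ (algebraMap k[X] A X) = algebraMap K L (x 0) →
        (∀ l, φ (c l) = y * φ (b l)) →
        C₀ ≤ logHeight₁ (x 0) →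
        Real.log |(discr L : ℝ)| ≤ ((q : ℝ) - (∑ j, (Module.finrank k (A ⧸ F j) : ℝ)) /
          Module.finrank k[X] A - 2 * κ) * (Module.finrank K L * logHeight₁ (x 0)) →
        logHeight₁ y ≤ σ * poles y := by
  obtain ⟨S, hS⟩ := trn_le (K := K) (k := k) a b c hbc
  obtain ⟨c₀, hc⟩ := coreU (K := K) (m := 1) (A := fun _ => A) hq a (fun _ _ => r)
    (fun _ _ l => b l) (fun _ => F) (fun _ => hF) (fun _ j l => hwF j l) (G := ∅)
    (fun p hp => absurd hp (Finset.notMem_empty p)) S hκ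
  choose r₁ C₁ hC₁ h₁ using fun l => ht_grow k A (c l)
  choose r₂ C₂ hC₂ h₂ using fun l => ht_grow k A (b l)
  obtain ⟨R, hR⟩ : ∃ R : ℝ, R = ∑ l, ((r₁ l : ℝ) + r₂ l) := ⟨_, rfl⟩
  obtain ⟨C', hC'⟩ : ∃ C' : ℝ, C' = ∑ l, (C₁ l + C₂ l) := ⟨_, rfl⟩
  have hR0 : 0 ≤ R := by
    rw [hR]
    exact Finset.sum_nonneg fun l _ => by positivity
  have hC'0 : 0 ≤ C' := by
    rw [hC']
    exact Finset.sum_nonneg fun l _ => add_nonneg (hC₁ l) (hC₂ l)
  obtain ⟨η, hη⟩ : ∃ η : ℝ, η = (q : ℝ) - (∑ j, (Module.finrank k (A ⧸ F j) : ℝ)) /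
    Module.finrank k[X] A := ⟨_, rfl⟩
  obtain ⟨C₀, hC₀⟩ : ∃ C₀ : ℝ, C₀ = 2 * |c₀| / κ + 1 := ⟨_, rfl⟩
  have hC₀0 : 1 ≤ C₀ := by
    rw [hC₀]
    have : 0 ≤ 2 * |c₀| / κ := by positivity
    linarith
  refine ⟨(R + Module.finrank ℚ K * C') * (2 / κ), C₀, by positivity, by linarith, ?_⟩
  intro x hxa hnn L _ _ _ _ _ φ y hφ hy hh1 hdisc
  have hinj : Function.Injective x := fun i j _ => (Subsingleton.elim i j : i = j)
  have hφ' : ∀ i : Fin 1, φ (algebraMap k[X] A X) = algebraMap K L (x i) := fun i => by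
    have hi : i = 0 := Subsingleton.elim i 0
    rw [hi]
    exact hφ
  have h3 := hc x hxa hinj hnn L (fun _ => φ) hφ'
  have h4 := hS L (fun _ => φ) y hy
  rw [Finset.sum_empty, add_zero, Finset.univ_unique, Finset.sum_singleton] at h3
  have hx0 : x default = x 0 := rfl
  rw [hx0] at h3
  have hfd : FiniteDimensional K L := Module.Finite.of_restrictScalars_finite ℚ K L
  obtain ⟨mL, hmL⟩ : ∃ mL : ℝ, mL = (Module.finrank K L : ℝ) := ⟨_, rfl⟩
  have hm0 : 0 < mL := by rw [hmL]; exact_mod_cast Module.finrank_pos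
  obtain ⟨nL, hnL⟩ : ∃ nL : ℝ, nL = (Module.finrank ℚ L : ℝ) := ⟨_, rfl⟩
  obtain ⟨d, hd⟩ : ∃ d : ℝ, d = (Module.finrank ℚ K : ℝ) := ⟨_, rfl⟩
  have hd0 : 0 < d := by rw [hd]; exact_mod_cast Module.finrank_pos
  have hn : nL = d * mL := by
    rw [hnL, hd, hmL]
    exact_mod_cast (Module.finrank_mul_finrank ℚ K L).symm
  have hn0 : 0 ≤ nL := by rw [hn]; positivity
  obtain ⟨lL, hlL⟩ : ∃ lL : ℝ, lL = Real.log |(discr L : ℝ)| := ⟨_, rfl⟩
  obtain ⟨h, hh⟩ : ∃ h : ℝ, h = logHeight₁ (x 0) := ⟨_, rfl⟩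
  have hh0 : 0 ≤ h := by rw [hh]; exact zero_le_logHeight₁ _
  obtain ⟨J, hJ⟩ : ∃ J : ℝ, J = poles y := ⟨_, rfl⟩
  rw [← hmL, ← hlL, ← hη, ← hh] at h3
  rw [← hJ] at h4
  rw [← hlL, ← hη, ← hmL, ← hh] at hdisc
  rw [← hh] at hh1
  obtain ⟨l, hl⟩ : ∃ l, φ (b l) ≠ 0 := by
    by_contra hcon
    push Not at hcon
    have h1top : (1 : A) ∈ Ideal.span (Set.range b) ⊔ Ideal.span (Set.range c) := by
      rw [hbc]
      exact Submodule.mem_top
    have h1ker : Ideal.span (Set.range b) ⊔ Ideal.span (Set.range c) ≤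
        RingHom.ker (φ : A →+* L) := by
      refine sup_le (Ideal.span_le.2 ?_) (Ideal.span_le.2 ?_)
      · rintro _ ⟨l, rfl⟩
        exact hcon l
      · rintro _ ⟨l, rfl⟩
        show φ (c l) = 0
        rw [hy l, hcon l, mul_zero]
    have h2 : φ (1 : A) = 0 := h1ker h1top
    rw [map_one] at h2
    exact one_ne_zero h2
  have h5 : logHeight₁ y ≤ R * (mL * h) + nL * C' := by
    have e0 : y = φ (c l) * (φ (b l))⁻¹ := by
      rw [hy l, mul_assoc, mul_inv_cancel₀ hl, mul_one]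
    have e1 := h₁ l L (φ : A →+* L)
    have e2 := h₂ l L (φ : A →+* L)
    have e3 : logHeight₁ (φ (algebraMap k[X] A X)) = mL * h := by
      rw [hφ, ht_ext, hmL, hh]
    have e4 : ((φ : A →+* L) (algebraMap k[X] A X)) = φ (algebraMap k[X] A X) := rfl
    have e5 : ((φ : A →+* L) (c l)) = φ (c l) := rfl
    have e6 : ((φ : A →+* L) (b l)) = φ (b l) := rfl
    rw [e4, e5, e3, ← hnL] at e1
    rw [e4, e6, e3, ← hnL] at e2
    have e7 : ((r₁ l : ℝ) + r₂ l) ≤ R := by
      rw [hR]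
      exact Finset.single_le_sum (f := fun l => (r₁ l : ℝ) + r₂ l)
        (fun l _ => by positivity) (Finset.mem_univ l)
    have e8 : C₁ l + C₂ l ≤ C' := by
      rw [hC']
      exact Finset.single_le_sum (f := fun l => C₁ l + C₂ l)
        (fun l _ => add_nonneg (hC₁ l) (hC₂ l)) (Finset.mem_univ l)
    have e9 := mul_le_mul_of_nonneg_right e7 (mul_nonneg hm0.le hh0)
    have e10 := mul_le_mul_of_nonneg_left e8 hn0
    have e11 : logHeight₁ y ≤ logHeight₁ (φ (c l)) + logHeight₁ (φ (b l)) := by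
      conv_lhs => rw [e0]
      refine (logHeight₁_mul_le _ _).trans ?_
      rw [logHeight₁_inv]
    linarith
  rw [← hJ]
  have hmh : 0 ≤ mL * h := mul_nonneg hm0.le hh0
  have h8 : κ / 2 * (mL * h) ≤ J := by
    have e : (η - κ) * (mL * h) ≤ lL + J + mL * c₀ := by
      have : mL * ((η - κ) * h) ≤ lL + trnU (A := fun _ => A) S a (fun _ _ => r)
        (fun _ _ l => b l) ∅ (fun _ => φ) + mL * c₀ := h3
      linarith
    have e1 : |c₀| ≤ κ / 2 * h := by
      have e2 : 2 * |c₀| / κ ≤ h := by linarith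
      rw [div_le_iff₀ hκ] at e2
      linarith
    have e3 : mL * c₀ ≤ mL * (κ / 2 * h) :=
      mul_le_mul_of_nonneg_left ((le_abs_self c₀).trans e1) hm0.le
    linarith
  have h10 : mL * h ≤ 2 / κ * J := by
    rw [div_mul_eq_mul_div, le_div_iff₀ hκ]
    linarith
  have h11 : nL * C' ≤ d * C' * (mL * h) := by
    have e1 : mL * 1 ≤ mL * h := mul_le_mul_of_nonneg_left (hC₀0.trans hh1) hm0.le
    have e2 := mul_le_mul_of_nonneg_left e1 (mul_nonneg hd0.le hC'0)
    rw [hn]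
    linarith
  have h12 : (0 : ℝ) ≤ R + d * C' := by positivity
  have h13 := mul_le_mul_of_nonneg_left h10 h12
  rw [← hd]
  calc logHeight₁ y ≤ R * (mL * h) + nL * C' := h5
    _ ≤ (R + d * C') * (mL * h) := by rw [add_mul]; linarith
    _ ≤ (R + d * C') * (2 / κ * J) := h13
    _ = (R + d * C') * (2 / κ) * J := by ring

end Pool.Agent.Y557.LF
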