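import Pool.Agent.Y728.AK.JSz

/-!
# The truncated Szpiro-type bound with a general constant (helper557, copy of a lemma of helper728)
-/

set_option autoImplicit false

namespace Pool.Agent.Y557.LF

open Height NumberField IsDedekindDomain TH951 Module Finset
open TH951.LS (GoodRed)
open Pool.Agent.TH942 (sw sw_ell)
open Pool.Agent.TH910.LS Pool.Agent.Y725.LS Pool.Agent.Y728.AK

/-- **the truncated Szpiro-type bound** -/
theorem szpS {K : Type} [Field K] [NumberField K] {j : K} {σ : ℝ} (hσ : 0 ≤ σ)
    (hj : logHeight₁ j ≤ σ * jbad j) {a b : 𝓞 K}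
    (hab : 4 * (a : K) ^ 3 + 27 * (b : K) ^ 2 ≠ 0) (hjab : jinv (a : K) b = j)
    (L : Type) [Field L] [NumberField L] [Algebra K L] {δ : ℝ} (hδ : 0 ≤ δ) :
    SzpiroLe σ δ 0 1 a b L := by
  classical
  choose up hup using exists_above (K := K) (L := L)
  refine ⟨∅, (fplace_finite j).toFinset.image up, by simp, ?_, ?_⟩
  · intro w hw
    obtain ⟨v, hv, rfl⟩ := Finset.mem_image.1 hw
    rw [Set.Finite.mem_toFinset] at hv
    left
    intro hgood
    have hab' : 4 * (algebraMap K L a) ^ 3 + 27 * (algebraMap K L b) ^ 2 ≠ 0 := by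
      have h1 : algebraMap K L (4 * (a : K) ^ 3 + 27 * (b : K) ^ 2) ≠ 0 := by
        rw [ne_eq, map_eq_zero]
        exact hab
      rw [map_add, map_mul, map_mul, map_pow, map_pow, map_ofNat, map_ofNat] at h1
      exact h1
    haveI hell := sw_ell hab'
    have h2 := good_j (up v) _ hgood
    rw [jinv_eq _ _ hell] at h2
    have e1 : jinv (algebraMap K L (a : K)) (algebraMap K L (b : K)) = algebraMap K L j := by
      rw [← hjab]
      unfold jinv
      rw [map_div₀, map_add, map_mul, map_mul, map_mul, map_pow, map_pow, map_ofNat, map_ofNat,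
        map_ofNat]
    rw [e1, ext_apply (K := K), hup] at h2
    have hv' : 1 < v.val j := hv
    have h3 : 1 < v.val j ^ ldeg K (up v) := one_lt_pow₀ hv' (ldeg_pos K (up v)).ne'
    linarith
  · intro S hS
    rw [hjab]
    have hinj : Set.InjOn up ((fplace_finite j).toFinset : Set (FinitePlace K)) := by
      intro v₁ _ v₂ _ h
      rw [← hup v₁, ← hup v₂, h]
    rw [Finset.sum_image hinj]
    have h1 : ∑ v ∈ (fplace_finite j).toFinset, Real.log (NF.Nm v) ≤
        ∑ v ∈ (fplace_finite j).toFinset,
          Real.log (Ideal.absNorm (up v).maximalIdeal.asIdeal) := by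
      refine Finset.sum_le_sum fun v _ => ?_
      have h2 := Nm_below K (up v)
      rw [hup v] at h2
      have h3 : NF.Nm v ≤ Ideal.absNorm (up v).maximalIdeal.asIdeal := by
        have h4 : Ideal.absNorm (up v).maximalIdeal.asIdeal = NF.Nm (up v) := rfl
        rw [h4, h2]
        refine Nat.le_self_pow ?_ _
        have := inert_pos K (up v)
        rw [hup v] at this
        exact this.ne'
      have h5 : 0 < NF.Nm v := by
        have := NF.one_lt_Nm v
        omega
      exact Real.log_le_log (by exact_mod_cast h5) (by exact_mod_cast h3)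
    rw [← jbad_places] at h1
    have h2 : ∑ v ∈ S, Real.log (v.val j) ≤ logHeight₁ j := by
      have h3 := FE.posLog_sum_le j S
      have h4 : (0 : ℝ) ≤ ∑ v : InfinitePlace K, (v.mult : ℝ) * Real.posLog (v.val j) :=
        Finset.sum_nonneg fun v _ => mul_nonneg (Nat.cast_nonneg _) Real.posLog_nonneg
      have h5 : ∑ v ∈ S, Real.log (v.val j) ≤ ∑ v ∈ S, Real.posLog (v.val j) :=
        Finset.sum_le_sum fun v _ => by
          rw [Real.posLog]
          exact le_max_right _ _
      linarith
    have h3 : 0 ≤ δ * logHeight₁ j := mul_nonneg hδ (zero_le_logHeight₁ j)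
    have h4 := mul_le_mul_of_nonneg_left h1 hσ
    linarith


end Pool.Agent.Y557.LF
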